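import Mathlib
import Pool.Agent.H77.GQ.Stm2

set_option autoImplicit false

/-!
# Project GQ, module B2S
-/

open MvPolynomial Module Pool.Agent.H77.TF Pool.Agent.H77.GQ

namespace Pool.Agent.H42.GQ

theorem finrank_two {F V : Type} [Field F] [AddCommGroup V] [Module F V] (u v : V) (hu : u ≠ 0)
    (h : ∀ c : F, v ≠ c • u) : finrank F (Submodule.span F {u, v}) = 2 := by
  have h1 : LinearIndependent F ![u, v] :=
    (LinearIndependent.pair_iff' hu).2 fun a ha => h a ha.symm
  have h2 := finrank_span_eq_card h1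
  rw [Fintype.card_fin, Matrix.range_cons, Matrix.range_cons, Matrix.range_empty, Set.union_empty] at h2
  exact h2

/-- **(B2S)** -/
theorem b2s : S_B2S := by
  classical
  intro K _ n A hA
  -- the plane of a pair
  let sp : Fin n → Fin n → Submodule K (Fin 3 → K) := fun s i => Submodule.span K {A s, A i}
  have hs1 : ∀ s i, A s ∈ sp s i := fun s i => Submodule.subset_span (Set.mem_insert _ _)
  have hs2 : ∀ s i, A i ∈ sp s i := fun s i =>
    Submodule.subset_span (Set.mem_insert_of_mem _ rfl)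
  have hfr : ∀ s i, s ≠ i → finrank K (sp s i) = 2 := fun s i h =>
    finrank_two _ _ (hA.1 s) fun c => hA.2 i s h.symm c
  have huniq : ∀ (W : Submodule K (Fin 3 → K)) (s i : Fin n), s ≠ i → finrank K W = 2 →
      A s ∈ W → A i ∈ W → sp s i = W := by
    intro W s i hsi hW h1 h2
    refine Submodule.eq_of_le_of_finrank_eq ?_ (by rw [hfr s i hsi, hW])
    rw [Submodule.span_le, Set.insert_subset_iff, Set.singleton_subset_iff]
    exact ⟨h1, h2⟩
  let P : Finset (Submodule K (Fin 3 → K)) :=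
    ((Finset.univ : Finset (Fin n × Fin n)).filter fun p => p.2 < p.1).image fun p => sp p.1 p.2
  have hP : ∀ W, W ∈ P ↔ ∃ s i, i < s ∧ sp s i = W := by
    intro W
    simp only [P, Finset.mem_image, Finset.mem_filter, Finset.mem_univ, true_and, Prod.exists]
  let M : Submodule K (Fin 3 → K) → Finset (Fin n) := fun W => Finset.univ.filter fun i => A i ∈ W
  have hM : ∀ W, Nat.card {i // A i ∈ W} = (M W).card := by
    intro W
    rw [Nat.card_eq_fintype_card, Fintype.card_subtype]
  -- one line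
  have hhn : ∀ s, hn A s = (P.filter fun W => ∃ i, i < s ∧ sp s i = W).card := by
    intro s
    unfold hn
    rw [Nat.card_coe_set_eq, ← Set.ncard_coe_finset]
    congr 1
    ext W
    simp only [Set.mem_range, Finset.coe_filter, Set.mem_ofPred_eq]
    constructor
    · rintro ⟨i, rfl⟩
      have hi : Fin.castLE s.2.le i < s := by
        rw [Fin.lt_def]; exact i.2
      exact ⟨(hP _).2 ⟨s, _, hi, rfl⟩, _, hi, rfl⟩
    · rintro ⟨_, i, hi, rfl⟩
      exact ⟨⟨i, by rw [Fin.lt_def] at hi; exact hi⟩, rfl⟩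
  -- one plane
  have hW : ∀ W ∈ P, ((Finset.univ : Finset (Fin n)).filter fun s => ∃ i, i < s ∧ sp s i = W).card =
      Nat.card {i // A i ∈ W} - 1 := by
    intro W hWP
    obtain ⟨s₀, i₀, hlt, rfl⟩ := (hP W).1 hWP
    rw [hM]
    have hne : (M (sp s₀ i₀)).Nonempty := ⟨s₀, by simp [M, hs1]⟩
    have hmem : ∀ i, i ∈ M (sp s₀ i₀) ↔ A i ∈ sp s₀ i₀ := by
      intro i; simp [M]
    have he : ((Finset.univ : Finset (Fin n)).filter fun s => ∃ i, i < s ∧ sp s i = sp s₀ i₀) =
        (M (sp s₀ i₀)).erase ((M (sp s₀ i₀)).min' hne) := by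
      ext s
      rw [Finset.mem_filter, Finset.mem_erase, hmem]
      constructor
      · rintro ⟨_, i, his, h⟩
        have h1 : A s ∈ sp s₀ i₀ := by rw [← h]; exact hs1 s i
        have h2 : A i ∈ sp s₀ i₀ := by rw [← h]; exact hs2 s i
        refine ⟨?_, h1⟩
        intro hs
        have h3 := Finset.min'_le (M (sp s₀ i₀)) i ((hmem i).2 h2)
        rw [← hs] at h3
        exact absurd h3 (not_le.2 his)
      · rintro ⟨h1, h2⟩
        refine ⟨Finset.mem_univ _, (M (sp s₀ i₀)).min' hne, ?_, ?_⟩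
        · exact lt_of_le_of_ne (Finset.min'_le _ _ ((hmem s).2 h2)) (Ne.symm h1)
        · exact huniq _ _ _ h1 (hfr s₀ i₀ (ne_of_gt hlt)) h2
            ((hmem _).1 (Finset.min'_mem _ hne))
    rw [he, Finset.card_erase_of_mem (Finset.min'_mem _ hne)]
  -- the support
  have hsup : ∑ᶠ W ∈ {W : Submodule K (Fin 3 → K) | finrank K W = 2}, (Nat.card {i // A i ∈ W} - 1) =
      ∑ W ∈ P, (Nat.card {i // A i ∈ W} - 1) := by
    refine finsum_mem_eq_sum_of_inter_support_eq _ ?_
    ext W
    simp only [Set.mem_inter_iff, Set.mem_ofPred_eq, Function.mem_support, Finset.mem_coe]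
    refine ⟨fun ⟨h1, h2⟩ => ⟨?_, h2⟩, fun ⟨h1, h2⟩ => ⟨?_, h2⟩⟩
    · rw [hM] at h2
      have h3 : 1 < (M W).card := by omega
      obtain ⟨a, ha, b, hb, hab⟩ := Finset.one_lt_card.1 h3
      have ha' : A a ∈ W := by simpa [M] using ha
      have hb' : A b ∈ W := by simpa [M] using hb
      rcases lt_or_gt_of_ne hab with h | h
      · exact (hP W).2 ⟨b, a, h, huniq W b a hab.symm h1 hb' ha'⟩
      · exact (hP W).2 ⟨a, b, h, huniq W a b hab h1 ha' hb'⟩
    · obtain ⟨s, i, his, rfl⟩ := (hP W).1 h1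
      exact hfr s i (ne_of_gt his)
  rw [hsup]
  unfold b2
  rw [Finset.sum_congr rfl fun s _ => hhn s, ← Finset.sum_congr rfl hW]
  simp only [Finset.card_filter]
  rw [Finset.sum_comm]

end Pool.Agent.H42.GQ
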