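import Mathlib
import Pool.Agent.H77.GQ.Stm

set_option autoImplicit false

/-!
# Project GQ, module NUQ
-/

open MvPolynomial Module Pool.Agent.H77.TF Pool.Agent.H77.GR Pool.Agent.H77.GQ

namespace Pool.Agent.H42.GQ

theorem choose_two (k : ℕ) : 2 * (((k + 2).choose 2 : ℕ) : ℤ) = (k + 2) * (k + 1) := by
  induction k with
  | zero => simp
  | succ k ih =>
    have h : (k + 1 + 2).choose 2 = (k + 2) + (k + 2).choose 2 := by
      have := Nat.choose_succ_succ' (k + 2) 1
      rw [Nat.choose_one_right] at this
      exact this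
    rw [h]
    push_cast
    linarith

/-- **(NUQ)** -/
theorem nuq (hDMF : S_DMF) (hDME : S_DME) : S_NUQ := by
  intro K _ n A a b hA hE
  set T : ℤ := ∑ s : Fin n, ((s : ℕ) - hn A s : ℤ) with hT
  have key : ∀ m : ℕ, n ≤ m + 1 → 1 ≤ m → a ≤ m → b ≤ m →
      ((m : ℤ) + 1) * m + (m - a + 2) * (m - a + 1) + (m - b + 2) * (m - b + 1) =
        3 * ((m + 2) * (m + 1)) - 2 * (n * (m + 1)) + 2 * T := by
    intro m h1 h2 h3 h4
    have e1 := hDMF K n A hA m h1
    have e2 := hDME K (Fin n) A ![1, a, b] hE m (by
      intro j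
      fin_cases j
      · exact h2
      · exact h3
      · exact h4)
    rw [e2, Fin.sum_univ_three] at e1
    simp only [Matrix.cons_val_zero, Matrix.cons_val_one, Matrix.cons_val_two, Matrix.head_cons,
      Matrix.tail_cons] at e1
    have c0 := choose_two (m - 1)
    have c1 := choose_two (m - a)
    have c2 := choose_two (m - b)
    have c3 := choose_two m
    rw [Nat.cast_sub h2] at c0
    rw [Nat.cast_sub h3] at c1
    rw [Nat.cast_sub h4] at c2
    push_cast at e1 c0 c1 c2 c3
    rw [← hT] at e1
    linarith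
  have k1 := key (n + a + b + 1) (by omega) (by omega) (by omega) (by omega)
  have k2 := key (n + a + b + 2) (by omega) (by omega) (by omega) (by omega)
  push_cast at k1 k2
  have h1 : (n : ℤ) = 1 + a + b := by linarith
  refine ⟨by exact_mod_cast h1, ?_⟩
  rw [h1] at k1
  linarith

end Pool.Agent.H42.GQ
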